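import Mathlib

/-! # The finite core of the curse of dimensionality of the `L_p` discrepancy

Three cells `0 = A`, `1 = B`, `2 = C` with weights `w`, three types of factors `φ δ τ`. The sum of the
products of the types which are compatible with one of `n` sign patterns has small `s`-th moment, because
all mixed moments of the factors are nonnegative. -/

set_option autoImplicit false

namespace Pool.Agent.H31.LD

open Finset

/-- The three factors: `φ δ 0 = (1 - δ, 1 + δ, 0)`, `φ δ 1 = (δ, -δ, 0)`, `φ δ 2 = (0, 0, 1)`. -/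
noncomputable def φ (δ : ℝ) (τ k : Fin 3) : ℝ :=
  (![![1 - δ, 1 + δ, 0], ![δ, -δ, 0], ![0, 0, 1]] : Fin 3 → Fin 3 → ℝ) τ k

/-- The types allowed by a side: `true` kills the type `2`, `false` kills the type `1`. -/
def ok (v : Bool) (τ : Fin 3) : Prop := if v then τ ≠ 2 else τ ≠ 1

instance (v : Bool) (τ : Fin 3) : Decidable (ok v τ) := by unfold ok; infer_instance

/-- The sum of the factors allowed by a side. -/
noncomputable def ψ (δ : ℝ) (v : Bool) (k : Fin 3) : ℝ := ∑ τ : Fin 3, if ok v τ then φ δ τ k else 0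

/-- Compatible patterns of types. -/
def Ω {d n : ℕ} (v : Fin n → Fin d → Bool) : Set (Fin d → Fin 3) := {τ | ∃ i, ∀ j, ok (v i j) (τ j)}

lemma sum_φ (δ : ℝ) (k : Fin 3) : ∑ τ : Fin 3, φ δ τ k = 1 := by
  fin_cases k <;> simp [φ, Fin.sum_univ_three]

lemma ψ_true (δ : ℝ) (k : Fin 3) : ψ δ true k = (![1, 1, 0] : Fin 3 → ℝ) k := by
  fin_cases k <;> simp [ψ, ok, φ, Fin.sum_univ_three]

lemma ψ_false (δ : ℝ) (k : Fin 3) : ψ δ false k = (![1 - δ, 1 + δ, 1] : Fin 3 → ℝ) k := by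
  fin_cases k <;> simp [ψ, ok, φ, Fin.sum_univ_three]

lemma ψ_nonneg {δ : ℝ} (h0 : 0 ≤ δ) (h1 : δ ≤ 1) (v : Bool) (k : Fin 3) : 0 ≤ ψ δ v k := by
  cases v
  · rw [ψ_false]; fin_cases k <;> simp <;> linarith
  · rw [ψ_true]; fin_cases k <;> simp

/-- All mixed moments are nonnegative. -/
lemma moment_nonneg {s : ℕ} {w : Fin 3 → ℝ} (hw : ∀ k, 0 ≤ w k) {δ : ℝ} (h0 : 0 < δ) (h1 : δ < 1)
    (hM : w 1 * ((1 + δ) / (1 - δ)) ^ s ≤ w 0) (m : Fin s → Fin 3) :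
    0 ≤ ∑ k : Fin 3, w k * ∏ i, φ δ (m i) k := by
  have hκ1 : 1 ≤ (1 + δ) / (1 - δ) := by rw [le_div_iff₀ (by linarith)]; linarith
  have hA : ∀ τ : Fin 3, 0 ≤ φ δ τ 0 := by
    intro τ; fin_cases τ <;> simp [φ] <;> linarith
  have hC : ∀ τ : Fin 3, 0 ≤ φ δ τ 2 := by
    intro τ; fin_cases τ <;> simp [φ]
  have hAB : ∀ τ : Fin 3, |φ δ τ 1| ≤ ((1 + δ) / (1 - δ)) * φ δ τ 0 := by
    intro τ
    fin_cases τ
    · simp only [φ, Fin.zero_eta, Matrix.cons_val_zero, Matrix.cons_val_one]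
      rw [div_mul_cancel₀ _ (by linarith : (1 : ℝ) - δ ≠ 0), abs_of_nonneg (by linarith)]
    · simp only [φ, Fin.mk_one, Matrix.cons_val_zero, Matrix.cons_val_one]
      rw [abs_neg, abs_of_nonneg h0.le]
      nlinarith
    · simp [φ]
  have h2 : |∏ i, φ δ (m i) 1| ≤ ((1 + δ) / (1 - δ)) ^ s * ∏ i, φ δ (m i) 0 := by
    rw [abs_prod]
    calc ∏ i, |φ δ (m i) 1| ≤ ∏ i, (((1 + δ) / (1 - δ)) * φ δ (m i) 0) :=
          prod_le_prod (fun i _ => abs_nonneg _) (fun i _ => hAB _)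
      _ = ((1 + δ) / (1 - δ)) ^ s * ∏ i, φ δ (m i) 0 := by
          rw [prod_mul_distrib, prod_const, card_univ, Fintype.card_fin]
  have h3 : 0 ≤ ∏ i, φ δ (m i) 0 := prod_nonneg (fun i _ => hA _)
  have h4 : 0 ≤ ∏ i, φ δ (m i) 2 := prod_nonneg (fun i _ => hC _)
  rw [Fin.sum_univ_three]
  have h5 : -(w 1 * (((1 + δ) / (1 - δ)) ^ s * ∏ i, φ δ (m i) 0)) ≤ w 1 * ∏ i, φ δ (m i) 1 := by
    rw [← mul_neg]
    exact mul_le_mul_of_nonneg_left (neg_le_of_abs_le h2) (hw 1)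
  have h6 : w 1 * (((1 + δ) / (1 - δ)) ^ s * ∏ i, φ δ (m i) 0) ≤ w 0 * ∏ i, φ δ (m i) 0 := by
    rw [← mul_assoc]
    exact mul_le_mul_of_nonneg_right hM h3
  have h7 := mul_nonneg (hw 2) h4
  linarith

/-- Monotonicity of the `s`-th moment in the coefficients. -/
lemma moment_mono {s : ℕ} {w : Fin 3 → ℝ} (hw : ∀ k, 0 ≤ w k) {δ : ℝ} (h0 : 0 < δ) (h1 : δ < 1)
    (hM : w 1 * ((1 + δ) / (1 - δ)) ^ s ≤ w 0) {d : ℕ} (u u' : (Fin d → Fin 3) → ℝ)
    (hu : ∀ τ, 0 ≤ u τ) (huu : ∀ τ, u τ ≤ u' τ) :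
    ∑ c : Fin d → Fin 3, (∏ j, w (c j)) * (∑ τ : Fin d → Fin 3, u τ * ∏ j, φ δ (τ j) (c j)) ^ s ≤
    ∑ c : Fin d → Fin 3, (∏ j, w (c j)) * (∑ τ : Fin d → Fin 3, u' τ * ∏ j, φ δ (τ j) (c j)) ^ s := by
  have key : ∀ u : (Fin d → Fin 3) → ℝ,
      ∑ c : Fin d → Fin 3, (∏ j, w (c j)) * (∑ τ : Fin d → Fin 3, u τ * ∏ j, φ δ (τ j) (c j)) ^ s =
      ∑ P : Fin s → Fin d → Fin 3, (∏ i, u (P i)) * ∏ j, ∑ k : Fin 3, w k * ∏ i, φ δ (P i j) k := by
    intro u
    have e1 : ∀ c : Fin d → Fin 3,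
        (∏ j, w (c j)) * (∑ τ : Fin d → Fin 3, u τ * ∏ j, φ δ (τ j) (c j)) ^ s =
        ∑ P : Fin s → Fin d → Fin 3, (∏ i, u (P i)) * ∏ j, (w (c j) * ∏ i, φ δ (P i j) (c j)) := by
      intro c
      rw [Fintype.sum_pow, mul_sum]
      refine sum_congr rfl (fun P _ => ?_)
      rw [prod_mul_distrib, prod_mul_distrib, prod_comm (s := univ (α := Fin s))]
      ring
    rw [sum_congr rfl (fun c _ => e1 c), sum_comm]
    refine sum_congr rfl (fun P _ => ?_)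
    rw [← mul_sum, prod_univ_sum, Fintype.piFinset_univ]
  rw [key u, key u']
  refine sum_le_sum (fun P _ => ?_)
  refine mul_le_mul_of_nonneg_right ?_ (prod_nonneg (fun j _ => moment_nonneg hw h0 h1 hM _))
  exact prod_le_prod (fun i _ => hu _) (fun i _ => huu _)

open Classical in
/-- **The core estimate.** -/
theorem core {s : ℕ} {w : Fin 3 → ℝ} (hw : ∀ k, 0 ≤ w k) {δ : ℝ} (h0 : 0 < δ) (h1 : δ < 1)
    (hM : w 1 * ((1 + δ) / (1 - δ)) ^ (s + 1) ≤ w 0) {ρ : ℝ} (hρ : 0 ≤ ρ)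
    (hρ1 : w 0 + w 1 ≤ ρ) (hρ2 : w 0 * (1 - δ) ^ (s + 1) + w 1 * (1 + δ) ^ (s + 1) + w 2 ≤ ρ)
    {d n : ℕ} (v : Fin n → Fin d → Bool) :
    ∑ c : Fin d → Fin 3, (∏ j, w (c j)) *
      (∑ τ : Fin d → Fin 3, (if τ ∈ Ω v then 1 else 0) * ∏ j, φ δ (τ j) (c j)) ^ (s + 1) ≤
    (n : ℝ) ^ (s + 1) * ρ ^ d := by
  have step1 := moment_mono hw h0 h1 hM (fun τ => if τ ∈ Ω v then (1 : ℝ) else 0)
    (fun τ => ∑ i : Fin n, ∏ j, (if ok (v i j) (τ j) then (1 : ℝ) else 0))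
    (fun τ => by split_ifs <;> norm_num)
    (fun τ => by
      have hn : ∀ i ∈ (univ : Finset (Fin n)),
          0 ≤ ∏ j, (if ok (v i j) (τ j) then (1 : ℝ) else 0) := fun i _ =>
        prod_nonneg (fun j _ => by split_ifs <;> norm_num)
      split_ifs with h
      · obtain ⟨i, hi⟩ := h
        refine le_trans ?_ (single_le_sum hn (mem_univ i))
        rw [prod_congr rfl (fun j _ => if_pos (hi j))]
        simp
      · exact sum_nonneg hn)
  refine step1.trans ?_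
  have e2 : ∀ c : Fin d → Fin 3,
      (∑ τ : Fin d → Fin 3, (∑ i : Fin n, ∏ j, (if ok (v i j) (τ j) then (1 : ℝ) else 0)) *
        ∏ j, φ δ (τ j) (c j)) = ∑ i : Fin n, ∏ j, ψ δ (v i j) (c j) := by
    intro c
    rw [sum_congr rfl (fun τ _ => sum_mul _ _ _), sum_comm]
    refine sum_congr rfl (fun i _ => ?_)
    unfold ψ
    rw [prod_univ_sum, Fintype.piFinset_univ]
    refine sum_congr rfl (fun τ _ => ?_)
    rw [← prod_mul_distrib]
    refine prod_congr rfl (fun j _ => ?_)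
    split_ifs <;> simp
  have e3 : ∀ c : Fin d → Fin 3, (∑ i : Fin n, ∏ j, ψ δ (v i j) (c j)) ^ (s + 1) ≤
      (n : ℝ) ^ s * ∑ i : Fin n, (∏ j, ψ δ (v i j) (c j)) ^ (s + 1) := by
    intro c
    have hp : ∀ i ∈ (univ : Finset (Fin n)), 0 ≤ ∏ j, ψ δ (v i j) (c j) := fun i _ =>
      prod_nonneg (fun j _ => ψ_nonneg h0.le h1.le _ _)
    rcases Nat.eq_zero_or_pos n with rfl | hn
    · simp
    have h := pow_sum_div_card_le_sum_pow (s := (univ : Finset (Fin n)))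
      (f := fun i => ∏ j, ψ δ (v i j) (c j)) hp s
    rw [card_univ, Fintype.card_fin, div_le_iff₀ (by positivity)] at h
    rw [mul_comm]
    exact h
  calc _ ≤ ∑ c : Fin d → Fin 3, (∏ j, w (c j)) *
        ((n : ℝ) ^ s * ∑ i : Fin n, (∏ j, ψ δ (v i j) (c j)) ^ (s + 1)) := by
        refine sum_le_sum (fun c _ => ?_)
        rw [e2 c]
        exact mul_le_mul_of_nonneg_left (e3 c) (prod_nonneg (fun j _ => hw _))
    _ = (n : ℝ) ^ s * ∑ i : Fin n, ∏ j, ∑ k : Fin 3, w k * ψ δ (v i j) k ^ (s + 1) := by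
        have : ∀ c : Fin d → Fin 3, (∏ j, w (c j)) *
            ((n : ℝ) ^ s * ∑ i : Fin n, (∏ j, ψ δ (v i j) (c j)) ^ (s + 1)) =
            (n : ℝ) ^ s * ∑ i : Fin n, ∏ j, (w (c j) * ψ δ (v i j) (c j) ^ (s + 1)) := by
          intro c
          rw [mul_left_comm, mul_sum]
          congr 1
          refine sum_congr rfl (fun i _ => ?_)
          rw [prod_mul_distrib, prod_pow]
        rw [sum_congr rfl (fun c _ => this c), ← mul_sum, sum_comm]
        congr 1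
        refine sum_congr rfl (fun i _ => ?_)
        rw [prod_univ_sum, Fintype.piFinset_univ]
    _ ≤ (n : ℝ) ^ s * ∑ i : Fin n, ρ ^ d := by
        refine mul_le_mul_of_nonneg_left ?_ (by positivity)
        refine sum_le_sum (fun i _ => ?_)
        have hfac : ∀ v : Bool, ∑ k : Fin 3, w k * ψ δ v k ^ (s + 1) ≤ ρ := by
          intro v
          rw [Fin.sum_univ_three]
          cases v
          · rw [ψ_false, ψ_false, ψ_false]
            simpa using hρ2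
          · rw [ψ_true, ψ_true, ψ_true]
            simpa using hρ1
        calc ∏ j, ∑ k : Fin 3, w k * ψ δ (v i j) k ^ (s + 1) ≤ ∏ _j : Fin d, ρ :=
              prod_le_prod (fun j _ => sum_nonneg (fun k _ => mul_nonneg (hw k)
                (pow_nonneg (ψ_nonneg h0.le h1.le _ _) _))) (fun j _ => hfac _)
          _ = ρ ^ d := by simp
    _ = (n : ℝ) ^ (s + 1) * ρ ^ d := by
        rw [sum_const, card_univ, Fintype.card_fin, nsmul_eq_mul, pow_succ]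
        ring

end Pool.Agent.H31.LD
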