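import Pool.Agent.H31.LD.One

/-! # The test function on the cube -/

set_option autoImplicit false

namespace Pool.Agent.H31.LD

open Finset MeasureTheory

instance : IsFiniteMeasure ν := by
  unfold ν; exact ⟨by simp⟩

/-- Lebesgue measure of the unit cube. -/
noncomputable def P (d : ℕ) : Measure (Fin d → ℝ) := Measure.pi (fun _ => ν)

instance (d : ℕ) : IsFiniteMeasure (P d) := by unfold P; infer_instance

lemma P_eq (d : ℕ) : (volume : Measure (Fin d → ℝ)).restrict (Set.Icc 0 1) = P d := by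
  unfold P ν
  rw [← Measure.restrict_pi_pi, ← volume_pi, ← Set.pi_univ_Icc]
  rfl

lemma ae_cube (d : ℕ) : ∀ᵐ t ∂P d, ∀ j, 0 ≤ t j ∧ t j ≤ 1 := by
  rw [← P_eq]
  refine (ae_restrict_mem measurableSet_Icc).mono (fun t ht j => ⟨ht.1 j, ht.2 j⟩)

variable {d n : ℕ}

/-- The side of the node in the coordinate `j`. -/
noncomputable def side (p : ℝ) (x : Fin n → Fin d → ℝ) (i : Fin n) (j : Fin d) : Bool :=
  decide (cc p ≤ x i j)

open Classical in
noncomputable def co (v : Fin n → Fin d → Bool) (τ : Fin d → Fin 3) : ℝ := if τ ∈ Ω v then 1 else 0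

noncomputable def θ (δ : ℝ) (v : Fin n → Fin d → Bool) (c : Fin d → Fin 3) : ℝ :=
  ∑ τ : Fin d → Fin 3, co v τ * ∏ j, φ δ (τ j) (c j)

noncomputable def Θ (δ : ℝ) (v : Fin n → Fin d → Bool) (c : Fin d → Fin 3) : ℝ :=
  ∑ τ : Fin d → Fin 3, (1 - co v τ) * ∏ j, φ δ (τ j) (c j)

lemma Θ_eq (δ : ℝ) (v : Fin n → Fin d → Bool) (c : Fin d → Fin 3) : Θ δ v c = 1 - θ δ v c := by
  unfold Θ θ
  have h : (1 : ℝ) = ∑ τ : Fin d → Fin 3, ∏ j, φ δ (τ j) (c j) := by
    have h2 := prod_univ_sum (fun _ : Fin d => (univ : Finset (Fin 3))) (fun j τ => φ δ τ (c j))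
    rw [Fintype.piFinset_univ] at h2
    rw [← h2]
    simp [sum_φ]
  rw [h, ← sum_sub_distrib, ← h]
  refine sum_congr rfl (fun τ _ => ?_)
  ring

/-- The test function. -/
noncomputable def g (p δ : ℝ) (v : Fin n → Fin d → Bool) (t : Fin d → ℝ) : ℝ :=
  ∑ τ : Fin d → Fin 3, (1 - co v τ) * ∏ j, B p δ (τ j) (t j)

lemma g_eq (p δ : ℝ) (v : Fin n → Fin d → Bool) (t : Fin d → ℝ) :
    g p δ v t = (∏ j, t j ^ (p - 1)) * Θ δ v (fun j => κ p (t j)) := by
  unfold g Θ B
  rw [mul_sum]
  refine sum_congr rfl (fun τ _ => ?_)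
  rw [prod_mul_distrib]
  ring

lemma measurable_B (p δ : ℝ) (τ : Fin 3) : Measurable (B p δ τ) := by
  unfold B
  exact (measurable_id.pow_const _).mul ((Measurable.of_discrete (f := φ δ τ)).comp (measurable_κ p))

lemma abs_φ_le {δ : ℝ} (h0 : 0 ≤ δ) (h1 : δ ≤ 1) (τ k : Fin 3) : |φ δ τ k| ≤ 2 := by
  fin_cases τ <;> fin_cases k <;> simp [φ] <;> rw [abs_le] <;> constructor <;> linarith

lemma abs_B_le {p : ℝ} (hp : 1 < p) {δ : ℝ} (h0 : 0 ≤ δ) (h1 : δ ≤ 1) (τ : Fin 3) {t : ℝ}
    (ht : 0 ≤ t ∧ t ≤ 1) : |B p δ τ t| ≤ 2 := by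
  unfold B
  rw [abs_mul, abs_of_nonneg (Real.rpow_nonneg ht.1 _)]
  have h2 : t ^ (p - 1) ≤ 1 := Real.rpow_le_one ht.1 ht.2 (by linarith)
  calc t ^ (p - 1) * |φ δ τ (κ p t)| ≤ 1 * 2 :=
        mul_le_mul h2 (abs_φ_le h0 h1 _ _) (abs_nonneg _) (by norm_num)
    _ = 2 := by norm_num

lemma measurable_g (p δ : ℝ) (v : Fin n → Fin d → Bool) : Measurable (g p δ v) := by
  unfold g
  refine Finset.measurable_sum _ (fun τ _ => ?_)
  refine Measurable.const_mul ?_ _
  exact Finset.measurable_prod _ (fun j _ => (measurable_B p δ _).comp (measurable_pi_apply j))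

lemma g_bound {p : ℝ} (hp : 1 < p) {δ : ℝ} (h0 : 0 ≤ δ) (h1 : δ ≤ 1) (v : Fin n → Fin d → Bool) :
    ∃ M : ℝ, ∀ t : Fin d → ℝ, (∀ j, 0 ≤ t j ∧ t j ≤ 1) → ‖g p δ v t‖ ≤ M := by
  refine ⟨∑ τ : Fin d → Fin 3, |1 - co v τ| * ∏ _j : Fin d, 2, fun t ht => ?_⟩
  unfold g
  refine (norm_sum_le _ _).trans (sum_le_sum (fun τ _ => ?_))
  rw [norm_mul, Real.norm_eq_abs, Real.norm_eq_abs, abs_prod]
  refine mul_le_mul_of_nonneg_left ?_ (abs_nonneg _)
  exact prod_le_prod (fun j _ => abs_nonneg _) (fun j _ => abs_B_le hp h0 h1 _ (ht j))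

/-- The indicator of the upper orthant of the node `i`. -/
noncomputable def ind (x : Fin n → Fin d → ℝ) (i : Fin n) (t : Fin d → ℝ) : ℝ :=
  ∏ j, if x i j < t j then (1 : ℝ) else 0

lemma measurable_ind (x : Fin n → Fin d → ℝ) (i : Fin n) : Measurable (ind x i) := by
  unfold ind
  refine Finset.measurable_prod _ (fun j _ => ?_)
  exact Measurable.ite (measurableSet_lt measurable_const (measurable_pi_apply j)) measurable_const
    measurable_const

lemma ind_bound (x : Fin n → Fin d → ℝ) (i : Fin n) (t : Fin d → ℝ) : |ind x i t| ≤ 1 := by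
  unfold ind
  rw [abs_prod]
  refine prod_le_one (fun j _ => abs_nonneg _) (fun j _ => ?_)
  split_ifs <;> simp

lemma integrable_cell {p : ℝ} (hp : 1 < p) (k : Fin 3) :
    Integrable (fun t => t ^ p * (if κ p t = k then (1 : ℝ) else 0)) ν := by
  unfold ν
  refine Measure.integrableOn_of_bounded (M := 1) (by simp) ?_ ?_
  · refine Measurable.aestronglyMeasurable ?_
    exact (measurable_id.pow_const _).mul (Measurable.ite ((measurable_κ p)
      (measurableSet_singleton k)) measurable_const measurable_const)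
  · refine (ae_restrict_mem measurableSet_Icc).mono (fun t ht => ?_)
    have h1 : t ^ p ≤ 1 := Real.rpow_le_one ht.1 ht.2 (by linarith)
    have h2 : 0 ≤ t ^ p := Real.rpow_nonneg ht.1 _
    split_ifs
    · rw [mul_one, Real.norm_of_nonneg h2]; exact h1
    · simp

lemma integrable_nodeB {p : ℝ} (hp : 1 < p) {δ : ℝ} (h0 : 0 ≤ δ) (h1 : δ ≤ 1) (τ : Fin 3) (y : ℝ) :
    Integrable (fun t => (if y < t then (1 : ℝ) else 0) * B p δ τ t) ν := by
  unfold ν
  refine Measure.integrableOn_of_bounded (M := 2) (by simp) ?_ ?_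
  · refine Measurable.aestronglyMeasurable ?_
    exact (Measurable.ite (measurableSet_lt measurable_const measurable_id) measurable_const
      measurable_const).mul (measurable_B p δ τ)
  · refine (ae_restrict_mem measurableSet_Icc).mono (fun t ht => ?_)
    have := abs_B_le hp h0 h1 τ ht
    rw [Real.norm_eq_abs]
    split_ifs
    · rw [one_mul]; exact this
    · simp

/-- The test function is orthogonal to the indicators of the nodes. -/
lemma node_zero {p : ℝ} (hp : 1 < p) {δ : ℝ} (h0 : 0 ≤ δ) (h1 : δ ≤ 1) (x : Fin n → Fin d → ℝ)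
    (i : Fin n) : ∫ t, ind x i t * g p δ (side p x) t ∂P d = 0 := by
  have e : (fun t => ind x i t * g p δ (side p x) t) = fun t =>
      ∑ τ : Fin d → Fin 3, (1 - co (side p x) τ) *
        ∏ j, ((if x i j < t j then (1 : ℝ) else 0) * B p δ (τ j) (t j)) := by
    funext t
    unfold ind g
    rw [mul_sum]
    refine sum_congr rfl (fun τ _ => ?_)
    rw [prod_mul_distrib]
    ring
  rw [e, integral_finset_sum]
  · refine sum_eq_zero (fun τ _ => ?_)
    rw [integral_const_mul]
    unfold co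
    split_ifs with hτ
    · simp
    · have hτ' : ¬ ∀ j, ok (side p x i j) (τ j) := fun h => hτ ⟨i, h⟩
      push Not at hτ'
      obtain ⟨j, hj⟩ := hτ'
      rw [P, integral_fintype_prod_eq_prod
        (f := fun j t => (if x i j < t then (1 : ℝ) else 0) * B p δ (τ j) t)]
      rw [prod_eq_zero (mem_univ j), mul_zero]
      unfold side ok at hj
      by_cases hc : cc p ≤ x i j
      · simp only [hc, decide_true, if_true, not_not, ne_eq] at hj
        rw [hj]
        exact B_integral_two hp δ hc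
      · simp only [hc, decide_false, ne_eq, Bool.false_eq_true, if_false, not_not] at hj
        rw [hj]
        exact B_integral_one hp δ (not_le.1 hc)
  · intro τ _
    refine Integrable.const_mul ?_ _
    exact Integrable.fintype_prod (f := fun j t => (if x i j < t then (1 : ℝ) else 0) * B p δ (τ j) t)
      (fun j => integrable_nodeB hp h0 h1 _ _)

/-- Integrals of functions of the cells. -/
lemma cell_sum {p : ℝ} (hp : 1 < p) (F : (Fin d → Fin 3) → ℝ) :
    ∫ t, (∏ j, t j ^ p) * F (fun j => κ p (t j)) ∂P d = ∑ c : Fin d → Fin 3, (∏ j, W p (c j)) * F c := by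
  have e : (fun t : Fin d → ℝ => (∏ j, t j ^ p) * F (fun j => κ p (t j))) = fun t =>
      ∑ c : Fin d → Fin 3, F c * ∏ j, (t j ^ p * (if κ p (t j) = c j then (1 : ℝ) else 0)) := by
    funext t
    rw [sum_eq_single (fun j => κ p (t j))]
    · simp; ring
    · intro c _ hc
      have : ∃ j, κ p (t j) ≠ c j := by
        by_contra h
        push Not at h
        exact hc (funext (fun j => (h j).symm))
      obtain ⟨j, hj⟩ := this
      rw [prod_eq_zero (mem_univ j) (by simp [hj]), mul_zero]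
    · intro h; exact absurd (mem_univ _) h
  rw [e, integral_finset_sum]
  · refine sum_congr rfl (fun c _ => ?_)
    rw [integral_const_mul, P, integral_fintype_prod_eq_prod
      (f := fun j t => t ^ p * (if κ p t = c j then (1 : ℝ) else 0)), mul_comm]
    rfl
  · intro c _
    refine Integrable.const_mul ?_ _
    exact Integrable.fintype_prod (f := fun j t => t ^ p * (if κ p t = c j then (1 : ℝ) else 0))
      (fun j => integrable_cell hp _)

end Pool.Agent.H31.LD
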