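import Pool.Agent.H31.LD.Cube

/-! # The curse of dimensionality -/

set_option autoImplicit false

namespace Pool.Agent.H31.LD

open Finset MeasureTheory

variable {d n : ℕ}

/-- Hölder's inequality with the test function. -/
lemma holder_test {p q : ℝ} (hpq : p.HolderConjugate q) {δ : ℝ} (h0 : 0 ≤ δ) (h1 : δ ≤ 1)
    (x : Fin n → Fin d → ℝ) (a : Fin n → ℝ) {ε : ℝ} (hε : 0 < ε)
    (H : ∫ t, |(∏ i, t i) - ∑ i, a i * ind x i t| ^ p ∂P d ≤ ε ^ p * ∫ t, |∏ i, t i| ^ p ∂P d) :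
    ∑ c : Fin d → Fin 3, (∏ j, W p (c j)) * Θ δ (side p x) c ≤
      ε * ((∑ k : Fin 3, W p k) ^ d) ^ (1 / p) *
        (∑ c : Fin d → Fin 3, (∏ j, W p (c j)) * |Θ δ (side p x) c| ^ q) ^ (1 / q) := by
  have hp : 1 < p := hpq.lt
  have hq : 1 < q := hpq.symm.lt
  set G := g p δ (side p x) with hG
  set D : (Fin d → ℝ) → ℝ := fun t => (∏ i, t i) - ∑ i, a i * ind x i t with hD
  obtain ⟨M, hM⟩ := g_bound hp h0 h1 (side p x)
  have hGm : Measurable G := measurable_g _ _ _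
  have hprodm : Measurable (fun t : Fin d → ℝ => ∏ i, t i) :=
    Finset.measurable_prod _ (fun j _ => measurable_pi_apply j)
  have hDm : Measurable D := by
    refine hprodm.sub (Finset.measurable_sum _ (fun i _ => ?_))
    exact (measurable_ind x i).const_mul _
  have hprodb : ∀ t : Fin d → ℝ, (∀ j, 0 ≤ t j ∧ t j ≤ 1) → |∏ i, t i| ≤ 1 := by
    intro t ht
    rw [abs_prod]
    exact prod_le_one (fun j _ => abs_nonneg _) (fun j _ => by rw [abs_of_nonneg (ht j).1]; exact (ht j).2)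
  have hDb : ∀ t : Fin d → ℝ, (∀ j, 0 ≤ t j ∧ t j ≤ 1) → ‖D t‖ ≤ 1 + ∑ i, |a i| := by
    intro t ht
    rw [hD, Real.norm_eq_abs]
    refine (abs_sub _ _).trans (add_le_add (hprodb t ht) ?_)
    refine (abs_sum_le_sum_abs _ _).trans (sum_le_sum (fun i _ => ?_))
    rw [abs_mul]
    exact mul_le_of_le_one_right (abs_nonneg _) (ind_bound x i t)
  have hDL : MemLp D (ENNReal.ofReal p) (P d) :=
    MemLp.of_bound hDm.aestronglyMeasurable (1 + ∑ i, |a i|) ((ae_cube d).mono hDb)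
  have hGL : MemLp G (ENNReal.ofReal q) (P d) :=
    MemLp.of_bound hGm.aestronglyMeasurable M ((ae_cube d).mono hM)
  have hGint : Integrable G (P d) :=
    Integrable.of_bound hGm.aestronglyMeasurable M ((ae_cube d).mono hM)
  -- the pairing
  have hpair : ∫ t, D t * G t ∂P d = ∑ c : Fin d → Fin 3, (∏ j, W p (c j)) * Θ δ (side p x) c := by
    have e1 : (fun t => D t * G t) = fun t => (∏ i, t i) * G t - ∑ i, a i * (ind x i t * G t) := by
      funext t
      rw [hD]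
      simp only
      rw [sub_mul, sum_mul]
      congr 1
      exact sum_congr rfl (fun i _ => by ring)
    have hi1 : Integrable (fun t => (∏ i, t i) * G t) (P d) := by
      refine Integrable.of_bound (hprodm.mul hGm).aestronglyMeasurable (1 * M) ?_
      refine (ae_cube d).mono (fun t ht => ?_)
      rw [norm_mul, Real.norm_eq_abs]
      exact mul_le_mul (hprodb t ht) (hM t ht) (norm_nonneg _) zero_le_one
    have hi2 : ∀ i, Integrable (fun t => ind x i t * G t) (P d) := by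
      intro i
      refine Integrable.of_bound ((measurable_ind x i).mul hGm).aestronglyMeasurable (1 * M) ?_
      refine (ae_cube d).mono (fun t ht => ?_)
      rw [norm_mul, Real.norm_eq_abs]
      exact mul_le_mul (ind_bound x i t) (hM t ht) (norm_nonneg _) zero_le_one
    rw [e1, integral_sub hi1 (integrable_finsetSum _ (fun i _ => (hi2 i).const_mul _)),
      integral_finsetSum _ (fun i _ => (hi2 i).const_mul _)]
    have e2 : ∑ i, ∫ t, a i * (ind x i t * G t) ∂P d = 0 := by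
      refine sum_eq_zero (fun i _ => ?_)
      rw [integral_const_mul, hG, node_zero hp h0 h1 x i, mul_zero]
    rw [e2, sub_zero, ← cell_sum hp (Θ δ (side p x))]
    refine integral_congr_ae ((ae_cube d).mono (fun t ht => ?_))
    simp only
    rw [hG, g_eq, ← mul_assoc, ← prod_mul_distrib]
    congr 1
    refine prod_congr rfl (fun j _ => ?_)
    rcases eq_or_lt_of_le (ht j).1 with h | h
    · rw [← h, zero_mul, Real.zero_rpow (by linarith)]
    · rw [Real.rpow_sub_one h.ne']; field_simp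
  -- the norm of the initial function
  have hinit : ∫ t, |∏ i, t i| ^ p ∂P d = (∑ k : Fin 3, W p k) ^ d := by
    have e1 : ∫ t, |∏ i, t i| ^ p ∂P d = ∫ t, (∏ j, t j ^ p) * (fun _ => (1 : ℝ)) (fun j => κ p (t j)) ∂P d := by
      refine integral_congr_ae ((ae_cube d).mono (fun t ht => ?_))
      simp only [mul_one]
      rw [abs_of_nonneg (prod_nonneg (fun j _ => (ht j).1)),
        Real.finsetProd_rpow _ _ (fun j _ => (ht j).1)]
    rw [e1, cell_sum hp (fun _ => (1 : ℝ))]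
    have h2 := prod_univ_sum (fun _ : Fin d => (univ : Finset (Fin 3))) (fun _ k => W p k)
    rw [Fintype.piFinset_univ] at h2
    simp only [mul_one]
    rw [← h2]
    simp
  -- the norm of the test function
  have hnorm : ∫ t, ‖G t‖ ^ q ∂P d =
      ∑ c : Fin d → Fin 3, (∏ j, W p (c j)) * |Θ δ (side p x) c| ^ q := by
    rw [← cell_sum hp (fun c => |Θ δ (side p x) c| ^ q)]
    refine integral_congr_ae ((ae_cube d).mono (fun t ht => ?_))
    simp only
    rw [hG, g_eq, norm_mul, Real.norm_eq_abs, Real.norm_eq_abs,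
      Real.mul_rpow (abs_nonneg _) (abs_nonneg _)]
    congr 1
    rw [abs_of_nonneg (prod_nonneg (fun j _ => Real.rpow_nonneg (ht j).1 _)),
      ← Real.finsetProd_rpow _ _ (fun j _ => Real.rpow_nonneg (ht j).1 _)]
    refine prod_congr rfl (fun j _ => ?_)
    rw [← Real.rpow_mul (ht j).1, hpq.sub_one_mul_conj]
  have hH := integral_mul_norm_le_Lp_mul_Lq hpq hDL hGL
  have hS0 : 0 ≤ (∑ k : Fin 3, W p k) ^ d := pow_nonneg (sum_nonneg (fun k _ => (W_pos hp k).le)) _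
  rw [← hpair]
  calc ∫ t, D t * G t ∂P d ≤ ∫ t, ‖D t‖ * ‖G t‖ ∂P d := by
        refine (le_abs_self _).trans (abs_integral_le_integral_abs.trans (le_of_eq ?_))
        refine integral_congr_ae (Filter.Eventually.of_forall (fun t => ?_))
        simp only [abs_mul, Real.norm_eq_abs]
    _ ≤ (∫ t, ‖D t‖ ^ p ∂P d) ^ (1 / p) * (∫ t, ‖G t‖ ^ q ∂P d) ^ (1 / q) := hH
    _ ≤ (ε ^ p * (∑ k : Fin 3, W p k) ^ d) ^ (1 / p) *
          (∑ c : Fin d → Fin 3, (∏ j, W p (c j)) * |Θ δ (side p x) c| ^ q) ^ (1 / q) := by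
        rw [hnorm]
        refine mul_le_mul_of_nonneg_right ?_ (Real.rpow_nonneg (sum_nonneg (fun c _ =>
          mul_nonneg (prod_nonneg (fun j _ => (W_pos hp _).le)) (Real.rpow_nonneg (abs_nonneg _) _))) _)
        refine Real.rpow_le_rpow (integral_nonneg (fun t => Real.rpow_nonneg (norm_nonneg _) _)) ?_
          (by positivity)
        rw [← hinit]
        exact H
    _ = _ := by
        rw [Real.mul_rpow (Real.rpow_nonneg hε.le _) hS0, ← Real.rpow_mul hε.le,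
          mul_one_div_cancel (by linarith), Real.rpow_one]

/-- The finite inequality: few nodes force the error to be large. -/
lemma finite_contra {p q : ℝ} (hpq : p.HolderConjugate q) {s : ℕ} (hs : Even (s + 1)) (hqs : q ≤ (s + 1 : ℕ))
    {δ : ℝ} {S : ℝ} (hS : S = ∑ k : Fin 3, W p k) (v : Fin n → Fin d → Bool)
    (hX : ∑ c : Fin d → Fin 3, (∏ j, W p (c j)) * θ δ v c ^ (s + 1) ≤ (1 / 4) ^ (s + 1) * S ^ d)
    {ε : ℝ} (hε : 0 < ε) (hε' : ε ≤ 1 / (4 * (1 + 2 ^ (s + 1))))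
    (H : ∑ c : Fin d → Fin 3, (∏ j, W p (c j)) * Θ δ v c ≤
      ε * (S ^ d) ^ (1 / p) *
        (∑ c : Fin d → Fin 3, (∏ j, W p (c j)) * |Θ δ v c| ^ q) ^ (1 / q)) : False := by
  have hp : 1 < p := hpq.lt
  have hq : 1 < q := hpq.symm.lt
  have hW : ∀ c : Fin d → Fin 3, 0 ≤ ∏ j, W p (c j) := fun c => prod_nonneg (fun j _ => (W_pos hp _).le)
  have hSpos : 0 < S := by
    rw [hS]; exact sum_pos (fun k _ => W_pos hp k) univ_nonempty
  have hSd : 0 < S ^ d := pow_pos hSpos _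
  have hone : ∑ c : Fin d → Fin 3, (∏ j, W p (c j)) = S ^ d := by
    have h2 := prod_univ_sum (fun _ : Fin d => (univ : Finset (Fin 3))) (fun _ k => W p k)
    rw [Fintype.piFinset_univ] at h2
    rw [← h2, hS]
    simp
  -- (1) the first moment
  have h1 : ∑ c : Fin d → Fin 3, (∏ j, W p (c j)) * θ δ v c ≤ S ^ d / 2 := by
    have hpt : ∀ y : ℝ, y ≤ 1 / 4 + 4 ^ s * y ^ (s + 1) := by
      intro y
      have hy : 0 ≤ y ^ (s + 1) := hs.pow_nonneg y
      by_cases h : y ≤ 1 / 4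
      · have : (0 : ℝ) ≤ 4 ^ s * y ^ (s + 1) := by positivity
        linarith
      · push Not at h
        have h4 : 1 ≤ (4 * y) ^ s := one_le_pow₀ (by linarith)
        have : y ≤ 4 ^ s * y ^ (s + 1) := by
          rw [pow_succ, ← mul_assoc, ← mul_pow]
          nlinarith
        linarith
    calc ∑ c : Fin d → Fin 3, (∏ j, W p (c j)) * θ δ v c
        ≤ ∑ c : Fin d → Fin 3, (∏ j, W p (c j)) * (1 / 4 + 4 ^ s * θ δ v c ^ (s + 1)) :=
          sum_le_sum (fun c _ => mul_le_mul_of_nonneg_left (hpt _) (hW c))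
      _ = (1 / 4) * S ^ d + 4 ^ s * ∑ c : Fin d → Fin 3, (∏ j, W p (c j)) * θ δ v c ^ (s + 1) := by
          rw [← hone, mul_sum, mul_sum, ← sum_add_distrib]
          exact sum_congr rfl (fun c _ => by ring)
      _ ≤ (1 / 4) * S ^ d + 4 ^ s * ((1 / 4) ^ (s + 1) * S ^ d) := by gcongr
      _ = S ^ d / 2 := by
          have : (4 : ℝ) ^ s * (1 / 4) ^ (s + 1) = 1 / 4 := by
            rw [pow_succ, ← mul_assoc, ← mul_pow]; norm_num
          rw [← mul_assoc, this]; ring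
  have h2 : S ^ d / 2 ≤ ∑ c : Fin d → Fin 3, (∏ j, W p (c j)) * Θ δ v c := by
    have : ∑ c : Fin d → Fin 3, (∏ j, W p (c j)) * Θ δ v c =
        S ^ d - ∑ c : Fin d → Fin 3, (∏ j, W p (c j)) * θ δ v c := by
      rw [← hone, ← sum_sub_distrib]
      exact sum_congr rfl (fun c _ => by rw [Θ_eq]; ring)
    rw [this]; linarith
  -- (2) the norm
  have h3 : ∑ c : Fin d → Fin 3, (∏ j, W p (c j)) * |Θ δ v c| ^ q ≤ (1 + 2 ^ (s + 1)) * S ^ d := by
    have hpt : ∀ y : ℝ, |1 - y| ^ q ≤ (1 + 2 ^ s) + 2 ^ s * y ^ (s + 1) := by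
      intro y
      have hy : 0 ≤ y ^ (s + 1) := hs.pow_nonneg y
      have ha : |1 - y| ^ (s + 1) ≤ 2 ^ s * (1 + y ^ (s + 1)) := by
        have h5 : |1 - y| ≤ 1 + |y| := by
          have := abs_sub 1 y
          simpa using this
        have h6 := add_pow_le (zero_le_one) (abs_nonneg y) (s + 1)
        rw [Nat.add_sub_cancel, one_pow, hs.pow_abs] at h6
        exact (pow_le_pow_left₀ (abs_nonneg _) h5 _).trans h6
      by_cases h : |1 - y| ≤ 1
      · have := Real.rpow_le_one (abs_nonneg _) h (by linarith : 0 ≤ q)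
        have h7 : (0 : ℝ) ≤ 2 ^ s := by positivity
        nlinarith
      · push Not at h
        have h8 : |1 - y| ^ q ≤ |1 - y| ^ ((s + 1 : ℕ) : ℝ) := Real.rpow_le_rpow_of_exponent_le h.le hqs
        rw [Real.rpow_natCast] at h8
        linarith
    calc ∑ c : Fin d → Fin 3, (∏ j, W p (c j)) * |Θ δ v c| ^ q
        ≤ ∑ c : Fin d → Fin 3, (∏ j, W p (c j)) * ((1 + 2 ^ s) + 2 ^ s * θ δ v c ^ (s + 1)) :=
          sum_le_sum (fun c _ => mul_le_mul_of_nonneg_left (by rw [Θ_eq]; exact hpt _) (hW c))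
      _ = (1 + 2 ^ s) * S ^ d + 2 ^ s * ∑ c : Fin d → Fin 3, (∏ j, W p (c j)) * θ δ v c ^ (s + 1) := by
          rw [← hone, mul_sum, mul_sum, ← sum_add_distrib]
          exact sum_congr rfl (fun c _ => by ring)
      _ ≤ (1 + 2 ^ s) * S ^ d + 2 ^ s * ((1 / 4) ^ (s + 1) * S ^ d) := by gcongr
      _ ≤ (1 + 2 ^ s) * S ^ d + 2 ^ s * (1 * S ^ d) := by
          have : (1 / 4 : ℝ) ^ (s + 1) ≤ 1 := pow_le_one₀ (by norm_num) (by norm_num)
          gcongr
      _ = (1 + 2 ^ (s + 1)) * S ^ d := by rw [pow_succ]; ring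
  set K : ℝ := 1 + 2 ^ (s + 1) with hK
  have hK1 : 1 ≤ K := by rw [hK]; linarith [pow_pos (zero_lt_two' ℝ) (s + 1)]
  have h4 : (∑ c : Fin d → Fin 3, (∏ j, W p (c j)) * |Θ δ v c| ^ q) ^ (1 / q) ≤
      K * (S ^ d) ^ (1 / q) := by
    calc _ ≤ (K * S ^ d) ^ (1 / q) := Real.rpow_le_rpow (sum_nonneg (fun c _ => mul_nonneg (hW c)
            (Real.rpow_nonneg (abs_nonneg _) _))) h3 (by positivity)
      _ = K ^ (1 / q) * (S ^ d) ^ (1 / q) := Real.mul_rpow (by linarith) hSd.le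
      _ ≤ K * (S ^ d) ^ (1 / q) := by
          refine mul_le_mul_of_nonneg_right ?_ (Real.rpow_nonneg hSd.le _)
          calc K ^ (1 / q) ≤ K ^ (1 : ℝ) := Real.rpow_le_rpow_of_exponent_le hK1 (by
                rw [div_le_one (by linarith)]; exact hq.le)
            _ = K := Real.rpow_one K
  have h5 : S ^ d / 2 ≤ ε * K * S ^ d := by
    calc S ^ d / 2 ≤ _ := h2
      _ ≤ _ := H
      _ ≤ ε * (S ^ d) ^ (1 / p) * (K * (S ^ d) ^ (1 / q)) :=
          mul_le_mul_of_nonneg_left h4 (mul_nonneg hε.le (Real.rpow_nonneg hSd.le _))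
      _ = ε * K * ((S ^ d) ^ (1 / p) * (S ^ d) ^ (1 / q)) := by ring
      _ = ε * K * S ^ d := by
          rw [← Real.rpow_add hSd, one_div, one_div, hpq.inv_add_inv_eq_one, Real.rpow_one]
  have h6 : ε * K ≤ 1 / 4 := by
    rw [le_div_iff₀ (by positivity)] at hε'
    linarith
  nlinarith

/-- **The curse of dimensionality** for the `L_p` discrepancy with arbitrary real weights. -/
theorem curse (p : ℝ) (hp : 1 < p) :
    ∃ τ : ℝ, 0 < τ ∧ ∃ ε₀ : ℝ, 0 < ε₀ ∧ ∀ d : ℕ, ∀ ε : ℝ, 0 < ε → ε ≤ ε₀ → ∀ n : ℕ,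
      ∀ x : Fin n → Fin d → ℝ, ∀ a : Fin n → ℝ,
        (∫ t, |(∏ i, t i) - ∑ i, a i * ind x i t| ^ p ∂P d ≤ ε ^ p * ∫ t, |∏ i, t i| ^ p ∂P d) →
        (1 / 4) * (1 + τ) ^ d ≤ (n : ℝ) := by
  obtain ⟨q, hpq⟩ : ∃ q, p.HolderConjugate q := ⟨_, Real.HolderConjugate.conjExponent hp⟩
  -- an odd `s` with `s + 1 ≥ q`
  obtain ⟨m, hm⟩ := exists_nat_ge q
  have hm1 : 1 ≤ m := by
    have : (1 : ℝ) < m := lt_of_lt_of_le hpq.symm.lt hm
    exact_mod_cast this.le
  set s : ℕ := 2 * m - 1 with hs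
  have hs1 : s + 1 = 2 * m := by omega
  have hse : Even (s + 1) := by rw [hs1]; exact even_two_mul m
  have hqs : q ≤ (s + 1 : ℕ) := by
    rw [hs1]; push_cast
    have : (0 : ℝ) ≤ m := Nat.cast_nonneg _
    linarith
  obtain ⟨δ, hδ0, hδ1, hM, hlt⟩ := exists_δ (W_pos hp 1).le (W_one_lt hp) (s := s + 1) (by omega)
  set S : ℝ := ∑ k : Fin 3, W p k with hS
  have hS3 : S = W p 0 + W p 1 + W p 2 := by rw [hS, Fin.sum_univ_three]
  set ρ : ℝ := max (W p 0 + W p 1) (W p 0 * (1 - δ) ^ (s + 1) + W p 1 * (1 + δ) ^ (s + 1) + W p 2)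
    with hρ
  have hρ0 : 0 < ρ := lt_of_lt_of_le (add_pos (W_pos hp 0) (W_pos hp 1)) (le_max_left _ _)
  have hρS : ρ < S := by
    rw [hS3, hρ]
    refine max_lt ?_ ?_
    · linarith [W_pos hp 2]
    · linarith
  have hSpos : 0 < S := hρ0.trans hρS
  -- the base
  set σ : ℝ := (S / ρ) ^ (1 / ((s + 1 : ℕ) : ℝ)) with hσ
  have hσ1 : 1 < σ := Real.one_lt_rpow (by rw [lt_div_iff₀ hρ0]; linarith) (by positivity)
  have hσp : σ ^ (s + 1) = S / ρ := by
    rw [hσ, ← Real.rpow_natCast, ← Real.rpow_mul (by positivity), one_div_mul_cancel (by positivity),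
      Real.rpow_one]
  refine ⟨σ - 1, by linarith, 1 / (4 * (1 + 2 ^ (s + 1))), by positivity, ?_⟩
  intro d ε hε hε' n x a H
  by_contra hn
  push Not at hn
  have e1 : (1 : ℝ) + (σ - 1) = σ := by ring
  rw [e1] at hn
  have hcore := core (s := s) (w := W p) (fun k => (W_pos hp k).le) hδ0 hδ1 hM hρ0.le (le_max_left _ _)
    (le_max_right _ _) (side p x)
  have hX : ∑ c : Fin d → Fin 3, (∏ j, W p (c j)) * θ δ (side p x) c ^ (s + 1) ≤
      (1 / 4) ^ (s + 1) * S ^ d := by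
    refine le_trans (le_of_eq ?_) (hcore.trans ?_)
    · rfl
    · have h1 : (n : ℝ) ^ (s + 1) ≤ ((1 / 4) * σ ^ d) ^ (s + 1) :=
        pow_le_pow_left₀ (Nat.cast_nonneg _) hn.le _
      calc (n : ℝ) ^ (s + 1) * ρ ^ d ≤ ((1 / 4) * σ ^ d) ^ (s + 1) * ρ ^ d := by gcongr
        _ = (1 / 4) ^ (s + 1) * ((σ ^ (s + 1)) ^ d * ρ ^ d) := by
            rw [mul_pow, ← pow_mul, ← pow_mul, mul_comm d (s + 1)]; ring
        _ = (1 / 4) ^ (s + 1) * S ^ d := by
            rw [hσp, ← mul_pow, div_mul_cancel₀ _ hρ0.ne']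
  exact finite_contra hpq hse hqs hS (side p x) hX hε hε'
    (holder_test hpq hδ0.le hδ1.le x a hε H)

end Pool.Agent.H31.LD
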