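import Pool.Agent.H31.LD.Core

/-! # One dimensional facts: the cells, their weights, the vanishing integrals -/

set_option autoImplicit false

namespace Pool.Agent.H31.LD

open Finset MeasureTheory

/-- Lebesgue measure of the unit interval. -/
noncomputable def ν : Measure ℝ := volume.restrict (Set.Icc 0 1)

noncomputable def bb (p : ℝ) : ℝ := (5 / 8 : ℝ) ^ (1 / p)
noncomputable def cc (p : ℝ) : ℝ := (1 / 4 : ℝ) ^ (1 / p)

lemma cc_pos (p : ℝ) : 0 < cc p := Real.rpow_pos_of_pos (by norm_num) _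
lemma cc_lt_bb {p : ℝ} (hp : 1 < p) : cc p < bb p :=
  Real.rpow_lt_rpow (by norm_num) (by norm_num) (by positivity)
lemma bb_lt_one {p : ℝ} (hp : 1 < p) : bb p < 1 :=
  Real.rpow_lt_one (by norm_num) (by norm_num) (by positivity)
lemma bb_pow {p : ℝ} (hp : 1 < p) : bb p ^ p = 5 / 8 := by
  unfold bb
  rw [← Real.rpow_mul (by norm_num), one_div, inv_mul_cancel₀ (by positivity), Real.rpow_one]
lemma cc_pow {p : ℝ} (hp : 1 < p) : cc p ^ p = 1 / 4 := by
  unfold cc
  rw [← Real.rpow_mul (by norm_num), one_div p, inv_mul_cancel₀ (by positivity), Real.rpow_one]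

/-- The cell of a point. -/
noncomputable def κ (p t : ℝ) : Fin 3 := if bb p ≤ t then 0 else if cc p ≤ t then 1 else 2

lemma κ_eq_zero {p t : ℝ} : κ p t = 0 ↔ bb p ≤ t := by
  unfold κ; split_ifs with h1 h2 <;> simp [h1]
lemma κ_eq_one {p t : ℝ} (hp : 1 < p) : κ p t = 1 ↔ cc p ≤ t ∧ t < bb p := by
  unfold κ; split_ifs with h1 h2
  · simp [not_lt.2 h1]
  · simp [h2, not_le.1 h1]
  · simp [h2]
lemma κ_eq_two {p t : ℝ} (hp : 1 < p) : κ p t = 2 ↔ t < cc p := by
  have := cc_lt_bb hp
  unfold κ; split_ifs with h1 h2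
  · simp; linarith
  · simp [h2]
  · simp [not_le.1 h2]

lemma measurable_κ (p : ℝ) : Measurable (κ p) := by
  unfold κ
  refine Measurable.ite measurableSet_Ici measurable_const ?_
  exact Measurable.ite measurableSet_Ici measurable_const measurable_const

/-- End points of the cells. -/
noncomputable def lo (p : ℝ) (k : Fin 3) : ℝ := (![bb p, cc p, 0] : Fin 3 → ℝ) k
noncomputable def hi (p : ℝ) (k : Fin 3) : ℝ := (![1, bb p, cc p] : Fin 3 → ℝ) k

lemma cell_integral {p : ℝ} (hp : 1 < p) {r : ℝ} (hr : 0 ≤ r) (k : Fin 3) :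
    ∫ t, t ^ r * (if κ p t = k then 1 else 0) ∂ν = (hi p k ^ (r + 1) - lo p k ^ (r + 1)) / (r + 1) := by
  have hc := cc_pos p
  have hcb := cc_lt_bb hp
  have hb1 := bb_lt_one hp
  have hle : lo p k ≤ hi p k := by
    fin_cases k <;> simp [lo, hi] <;> linarith
  have h1 : ∫ t, t ^ r * (if κ p t = k then 1 else 0) ∂ν = ∫ t in Set.Ioc (lo p k) (hi p k), t ^ r := by
    have e1 : (fun t => t ^ r * (if κ p t = k then (1 : ℝ) else 0)) =
        Set.indicator {t | κ p t = k} (fun t => t ^ r) := by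
      funext t
      by_cases h : κ p t = k <;> simp [Set.indicator, h]
    have hm : MeasurableSet {t | κ p t = k} := (measurable_κ p) (measurableSet_singleton k)
    rw [e1, integral_indicator hm, ν, Measure.restrict_restrict hm]
    refine setIntegral_congr_set ?_
    have e2 : (({t | κ p t = k} ∩ Set.Icc (0 : ℝ) 1 : Set ℝ) =ᵐ[volume] Set.Icc (lo p k) (hi p k)) := by
      fin_cases k
      · refine Filter.EventuallyEq.of_eq ?_
        ext t
        simp only [Fin.zero_eta, Set.mem_inter_iff, Set.mem_setOf_eq, κ_eq_zero, Set.mem_Icc, lo, hi,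
          Matrix.cons_val_zero]
        constructor
        · rintro ⟨h, _, h2⟩; exact ⟨h, h2⟩
        · rintro ⟨h, h2⟩; exact ⟨h, by linarith, h2⟩
      · have e3 : ({t | κ p t = 1} ∩ Set.Icc (0 : ℝ) 1 : Set ℝ) = Set.Ico (cc p) (bb p) := by
          ext t
          simp only [Set.mem_inter_iff, Set.mem_setOf_eq, κ_eq_one hp, Set.mem_Icc, Set.mem_Ico]
          constructor
          · rintro ⟨h, _⟩; exact h
          · rintro ⟨h, h2⟩; exact ⟨⟨h, h2⟩, by linarith, by linarith⟩
        change (({t | κ p t = 1} ∩ Set.Icc (0 : ℝ) 1 : Set ℝ) =ᵐ[volume] Set.Icc (cc p) (bb p))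
        rw [e3]
        exact Ico_ae_eq_Icc
      · have e3 : ({t | κ p t = 2} ∩ Set.Icc (0 : ℝ) 1 : Set ℝ) = Set.Ico 0 (cc p) := by
          ext t
          simp only [Set.mem_inter_iff, Set.mem_setOf_eq, κ_eq_two hp, Set.mem_Icc, Set.mem_Ico]
          constructor
          · rintro ⟨h, h2, _⟩; exact ⟨h2, h⟩
          · rintro ⟨h, h2⟩; exact ⟨h2, h, by linarith⟩
        change (({t | κ p t = 2} ∩ Set.Icc (0 : ℝ) 1 : Set ℝ) =ᵐ[volume] Set.Icc 0 (cc p))
        rw [e3]
        exact Ico_ae_eq_Icc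
    exact e2.trans Ioc_ae_eq_Icc.symm
  rw [h1, ← intervalIntegral.integral_of_le hle, integral_rpow (Or.inl (by linarith))]

/-- Weights of the cells. -/
noncomputable def W (p : ℝ) (k : Fin 3) : ℝ := ∫ t, t ^ p * (if κ p t = k then 1 else 0) ∂ν

lemma W_pos {p : ℝ} (hp : 1 < p) (k : Fin 3) : 0 < W p k := by
  unfold W
  rw [cell_integral hp (by linarith)]
  have hc := cc_pos p
  have hcb := cc_lt_bb hp
  have hb1 := bb_lt_one hp
  have hle : lo p k < hi p k := by
    fin_cases k <;> simp [lo, hi] <;> linarith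
  have hlo : 0 ≤ lo p k := by
    fin_cases k <;> simp [lo] <;> linarith
  have := Real.rpow_lt_rpow hlo hle (by linarith : 0 < p + 1)
  exact div_pos (by linarith) (by linarith)

lemma W_one_lt {p : ℝ} (hp : 1 < p) : W p 1 < W p 0 := by
  unfold W
  rw [cell_integral hp (by linarith), cell_integral hp (by linarith)]
  refine div_lt_div_of_pos_right ?_ (by linarith)
  have e1 : hi p 1 ^ (p + 1) = (5 / 8 : ℝ) ^ ((p + 1) / p) := by
    simp only [hi, Matrix.cons_val_one, Matrix.cons_val_zero, bb]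
    rw [← Real.rpow_mul (by norm_num)]; congr 1; ring
  have e2 : lo p 1 ^ (p + 1) = (1 / 4 : ℝ) ^ ((p + 1) / p) := by
    simp only [lo, Matrix.cons_val_one, Matrix.cons_val_zero, cc]
    rw [← Real.rpow_mul (by norm_num)]; congr 1; ring
  have e3 : hi p 0 ^ (p + 1) = 1 := by simp [hi]
  have e4 : lo p 0 ^ (p + 1) = (5 / 8 : ℝ) ^ ((p + 1) / p) := by
    simp only [lo, Matrix.cons_val_zero, bb]
    rw [← Real.rpow_mul (by norm_num)]; congr 1; ring
  rw [e1, e2, e3, e4]
  have hs := (strictConvexOn_rpow (p := (p + 1) / p) (by rw [lt_div_iff₀ (by linarith)]; linarith)).2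
    (show (1 / 4 : ℝ) ∈ Set.Ici 0 by norm_num) (show (1 : ℝ) ∈ Set.Ici 0 by norm_num) (by norm_num)
    (show (0 : ℝ) < 1 / 2 by norm_num) (show (0 : ℝ) < 1 / 2 by norm_num) (by norm_num)
  simp only [smul_eq_mul, Real.one_rpow] at hs
  norm_num at hs ⊢
  linarith

/-- One dimensional factors. -/
noncomputable def B (p δ : ℝ) (τ : Fin 3) (t : ℝ) : ℝ := t ^ (p - 1) * φ δ τ (κ p t)

lemma B_integral_one {p : ℝ} (hp : 1 < p) (δ : ℝ) {x : ℝ} (hx : x < cc p) :
    ∫ t, (if x < t then 1 else 0) * B p δ 1 t ∂ν = 0 := by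
  have hcb := cc_lt_bb hp
  have e : (fun t => (if x < t then 1 else 0) * B p δ 1 t) =
      fun t => δ * (t ^ (p - 1) * (if κ p t = 0 then 1 else 0)) -
        δ * (t ^ (p - 1) * (if κ p t = 1 then 1 else 0)) := by
    funext t
    unfold B
    by_cases h0 : bb p ≤ t
    · have hk : κ p t = 0 := κ_eq_zero.2 h0
      have hxt : x < t := by linarith
      simp [hk, hxt, φ]; ring
    · by_cases h1 : cc p ≤ t
      · have hk : κ p t = 1 := (κ_eq_one hp).2 ⟨h1, not_le.1 h0⟩
        have hxt : x < t := by linarith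
        simp [hk, hxt, φ]; ring
      · have hk : κ p t = 2 := (κ_eq_two hp).2 (not_le.1 h1)
        simp [hk, φ]
  have hint : ∀ k : Fin 3, Integrable (fun t => t ^ (p - 1) * (if κ p t = k then (1 : ℝ) else 0)) ν := by
    intro k
    unfold ν
    refine Measure.integrableOn_of_bounded (M := 1) (by simp) ?_ ?_
    · refine Measurable.aestronglyMeasurable ?_
      exact (measurable_id.pow_const _).mul (Measurable.ite ((measurable_κ p)
        (measurableSet_singleton k)) measurable_const measurable_const)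
    · refine (ae_restrict_mem measurableSet_Icc).mono (fun t ht => ?_)
      have h1 : t ^ (p - 1) ≤ 1 := Real.rpow_le_one ht.1 ht.2 (by linarith)
      have h2 : 0 ≤ t ^ (p - 1) := Real.rpow_nonneg ht.1 _
      split_ifs
      · rw [mul_one, Real.norm_of_nonneg h2]; exact h1
      · simp
  rw [e, integral_sub ((hint 0).const_mul _) ((hint 1).const_mul _), integral_const_mul,
    integral_const_mul, cell_integral hp (by linarith), cell_integral hp (by linarith)]
  simp only [hi, lo, Matrix.cons_val_zero, Matrix.cons_val_one, sub_add_cancel, bb_pow hp, cc_pow hp,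
    Real.one_rpow]
  ring

lemma B_integral_two {p : ℝ} (hp : 1 < p) (δ : ℝ) {x : ℝ} (hx : cc p ≤ x) :
    ∫ t, (if x < t then 1 else 0) * B p δ 2 t ∂ν = 0 := by
  have e : (fun t => (if x < t then 1 else 0) * B p δ 2 t) = fun _ => (0 : ℝ) := by
    funext t
    unfold B
    by_cases h : x < t
    · by_cases h0 : bb p ≤ t
      · have hk : κ p t = 0 := κ_eq_zero.2 h0
        simp [hk, φ]
      · have hk : κ p t = 1 := (κ_eq_one hp).2 ⟨by linarith, not_le.1 h0⟩
        simp [hk, φ]
    · simp [h]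
  rw [e]; simp

/-- Choice of the modulation. -/
lemma exists_δ {a b : ℝ} (hb : 0 ≤ b) (hab : b < a) {s : ℕ} (hs : 1 ≤ s) :
    ∃ δ : ℝ, 0 < δ ∧ δ < 1 ∧ b * ((1 + δ) / (1 - δ)) ^ s ≤ a ∧
      a * (1 - δ) ^ s + b * (1 + δ) ^ s < a + b := by
  have ha : 0 < a := lt_of_le_of_lt hb hab
  set u : ℝ := (a - b) / (4 * a) with hu
  have hu0 : 0 < u := div_pos (by linarith) (by linarith)
  have hua : u * (4 * a) = a - b := by rw [hu]; field_simp
  have hu1 : u ≤ 1 / 4 := by
    rw [hu, div_le_iff₀ (by linarith)]; linarith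
  have hs' : (1 : ℝ) ≤ s := by exact_mod_cast hs
  refine ⟨u / s, by positivity, ?_, ?_, ?_⟩
  · rw [div_lt_iff₀ (by linarith)]; nlinarith
  all_goals
    set δ : ℝ := u / s with hδ
    have hδs : (s : ℝ) * δ = u := by rw [hδ]; field_simp
    have hδ0 : 0 < δ := by positivity
    have hδ1 : δ < 1 := by rw [hδ, div_lt_iff₀ (by linarith)]; nlinarith
    have h1 : 1 - u ≤ (1 - δ) ^ s := by
      have := one_add_mul_le_pow (a := -δ) (by linarith) s
      have e : (1 : ℝ) + -δ = 1 - δ := by ring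
      rw [e] at this
      nlinarith
    have h2 : 1 + u ≤ (1 + δ) ^ s := by
      have := one_add_mul_le_pow (a := δ) (by linarith) s
      nlinarith
    have h3 : (1 - δ) ^ s * (1 + δ) ^ s ≤ 1 := by
      rw [← mul_pow]
      exact pow_le_one₀ (by nlinarith) (by nlinarith)
    have hp1 : 0 < (1 - δ) ^ s := pow_pos (by linarith) _
    have hp2 : 0 < (1 + δ) ^ s := pow_pos (by linarith) _
  · -- the moment condition
    rw [div_pow, mul_div_assoc', div_le_iff₀ hp1]
    have h4 : (1 + δ) ^ s * (1 - u) ≤ 1 := by nlinarith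
    have h5 : b ≤ a * (1 - u) ^ 2 := by nlinarith
    have h6 : b * (1 + δ) ^ s * (1 - u) ≤ b := by nlinarith
    have h7 : b ≤ a * (1 - δ) ^ s * (1 - u) := by nlinarith [mul_le_mul_of_nonneg_left h1 ha.le]
    have h8 : b * (1 + δ) ^ s * (1 - u) ≤ a * (1 - δ) ^ s * (1 - u) := h6.trans h7
    exact le_of_mul_le_mul_right h8 (by linarith)
  · have h4 : (1 - δ) ^ s ≤ 1 / (1 + u) := by
      rw [le_div_iff₀ (by linarith)]; nlinarith
    have h5 : (1 + δ) ^ s ≤ 1 / (1 - u) := by
      rw [le_div_iff₀ (by linarith)]; nlinarith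
    have h6 : a * (1 / (1 + u)) + b * (1 / (1 - u)) < a + b := by
      have e1 : a * (1 / (1 + u)) = a - a * u / (1 + u) := by field_simp; ring
      have e2 : b * (1 / (1 - u)) = b + b * u / (1 - u) := by
        have : (1 : ℝ) - u ≠ 0 := by linarith
        field_simp; ring
      rw [e1, e2]
      have h7 : b * u / (1 - u) < a * u / (1 + u) := by
        rw [div_lt_div_iff₀ (by linarith) (by linarith)]
        have : b * (1 + u) < a * (1 - u) := by nlinarith
        nlinarith
      linarith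
    calc a * (1 - δ) ^ s + b * (1 + δ) ^ s ≤ a * (1 / (1 + u)) + b * (1 / (1 - u)) := by
          gcongr
      _ < a + b := h6

end Pool.Agent.H31.LD
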